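import Pool.Agent.Lib.MP_5f3cbe_lc.HCalc

namespace Pool.Agent.Results.MP_5f3cbe_lc.Definable

open Pool.Agent.Lib.MP_5f3cbe_lc.Hd

theorem result :
    ∃ φ : LR.Formula (Fin 1), ∀ f : Hol,
      @FirstOrder.Language.Formula.Realize LR Hol (str Hol) (Fin 1) φ (fun _ => f) ↔
        Admissible f :=
  main

end Pool.Agent.Results.MP_5f3cbe_lc.Definable
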